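import Pool.Agent.H71.DM.Targets
import Pool.Agent.H71.DM.Basic

set_option autoImplicit false

/-!
# MP_c1331e_co, module BAT (a batch of `M` new vertices)
-/

namespace Pool.Agent.H73.DM

open Finset Pool.Agent.H71.DM

theorem hitAt_mono {V : Type} [Fintype V] {I X : Type} [Fintype I] [DecidableEq I] [Fintype X]
    {adj : V → V → Prop} {q : I → X → ℝ} (hq : ∀ i, IsProb (q i)) {b : (I → X) → Finset V}
    {u : Finset V → V → ℝ} {g τ : ℝ} {R R' : Set V} (h : HitAt adj q b u g τ R) (hR : R' ⊆ R) :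
    HitAt adj q b u g τ R' := by
  unfold HitAt at *
  exact h.trans (pr_mono' (prodW_prob hq).1 fun x hx s hs => hx s (hR hs))

theorem bat (hRR : RRStmt) (hREG : RegionStmt) (hPIG : PigStmt) (hPGU : PigUStmt)
    (hITR : IterStmt) : BatchStmt := by
  intro G B T γ τ ε hγ hτ hε hNF hNU
  classical
  set c : ℝ := ((Fintype.card B.C : ℕ) : ℝ) with hc
  have hc1 : (1 : ℝ) ≤ c := by
    rw [hc]
    exact_mod_cast Nat.succ_le_of_lt (Fintype.card_pos (α := B.C))
  have hc0 : 0 < c := by linarith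
  set β : ℝ := τ * γ / (16 * c) with hβ
  have hβ0 : 0 < β := by rw [hβ]; positivity
  set θ0 : ℝ := min (min ε 1) β with hθ0
  have hθpos : 0 < θ0 := by
    rw [hθ0]
    exact lt_min (lt_min hε one_pos) hβ0
  have hθε : θ0 ≤ ε := (min_le_left _ _).trans (min_le_left _ _)
  have hθ1 : θ0 ≤ 1 := (min_le_left _ _).trans (min_le_right _ _)
  have hθβ : θ0 ≤ β := min_le_right _ _
  have hsum : τ / 2 + c * ((2 * θ0 + β) * (2 / γ)) ≤ τ := by
    have h1 : c * ((2 * θ0 + β) * (2 / γ)) ≤ c * ((3 * β) * (2 / γ)) := by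
      apply mul_le_mul_of_nonneg_left _ hc0.le
      apply mul_le_mul_of_nonneg_right _ (by positivity)
      linarith
    have h2 : c * ((3 * β) * (2 / γ)) = 3 * τ / 8 := by
      rw [hβ]
      field_simp
      ring
    linarith
  refine ⟨β / (2 * c), θ0 / 4, by positivity, by positivity, by linarith, ?_⟩
  intro S hS hST Q _ _ _ Sw hSw hSwT M δ' hδ'
  set q : ℝ := ((Fintype.card Q : ℕ) : ℝ) with hq
  have hq1 : (1 : ℝ) ≤ q := by
    rw [hq]
    exact_mod_cast Nat.succ_le_of_lt (Fintype.card_pos (α := Q))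
  have hq0 : 0 < q := by linarith
  set κ : ℝ := β / 4 * (1 / 2) ^ Fintype.card Q with hκ
  have hκ0 : 0 < κ := by rw [hκ]; positivity
  set η : ℝ := κ / (2 * q * 2 ^ M) with hη
  have hη0 : 0 < η := by rw [hη]; positivity
  set δ : ℝ := κ * (θ0 / 2) ^ (2 * (Fintype.card Q * 2 ^ M)) with hδ
  have hδ0 : 0 < δ := by rw [hδ]; positivity
  obtain ⟨Rw, u, hRw, hRwS, hu, hhit⟩ :=
    hRR G B T γ τ (τ / 2) hτ (by linarith) hNF S hS hST Q Sw hSw hSwT
  have hreg := fun w => hREG G B T γ τ ε β θ0 (τ / 2) hγ hθpos hθε hβ0 (by linarith) hsum hNU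
    S (Rw w) u hS hST (hRw w) ((hRwS w).trans (hSwT w)) hu
    (by
      filter_upwards [hhit] with n hn
      exact hitAt_mono (B.hq n) hn (Set.subset_iUnion (fun w => Rw w n) w))
    δ η hδ0 hη0
  choose R' cw Nw hR' hR'S hNdep hNmass hNbad using hreg
  -- majority
  obtain ⟨cs, hcs⟩ : ∃ cs : B.C, Fintype.card Q ≤
      Fintype.card B.C * (univ.filter (fun w => cw w = cs)).card := by
    by_contra hcon
    push Not at hcon
    have h1 : Fintype.card Q = ∑ cs : B.C, (univ.filter (fun w => cw w = cs)).card := by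
      rw [← Finset.card_univ]
      exact Finset.card_eq_sum_card_fiberwise (fun w _ => Finset.mem_coe.2 (mem_univ (cw w)))
    have h2 : Fintype.card B.C * Fintype.card Q = ∑ cs : B.C,
        Fintype.card B.C * (univ.filter (fun w => cw w = cs)).card := by
      rw [← Finset.mul_sum, ← h1]
    have h3 : ∑ cs : B.C, Fintype.card B.C * (univ.filter (fun w => cw w = cs)).card <
        ∑ _cs : B.C, Fintype.card Q :=
      Finset.sum_lt_sum_of_nonempty univ_nonempty (fun cs _ => hcon cs)
    rw [← h2, Finset.sum_const, Finset.card_univ, smul_eq_mul] at h3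
    exact lt_irrefl _ h3
  let Qs : Type := {w : Q // cw w = cs}
  have hQcard : Fintype.card Qs = (univ.filter (fun w => cw w = cs)).card :=
    Fintype.card_subtype _
  have hQpos : 0 < Fintype.card Qs := by
    rw [hQcard]
    by_contra h0
    have h1 : (univ.filter (fun w => cw w = cs)).card = 0 := by omega
    rw [h1, mul_zero] at hcs
    have := Fintype.card_pos (α := Q)
    omega
  have : Nonempty Qs := Fintype.card_pos_iff.1 hQpos
  have hQle : Fintype.card Qs ≤ Fintype.card Q := Fintype.card_subtype_le _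
  have hQc : q ≤ c * Fintype.card Qs := by
    rw [hq, hc, hQcard]
    exact_mod_cast hcs
  -- pigeonhole for the regions
  have hpig : ∀ᶠ n in UU, ∃ W : Finset Qs, β / 2 * Fintype.card Qs ≤ W.card ∧
      κ ≤ pr (prodW (B.q n)) (fun x =>
        κ ≤ pr (mean (B.q n) (B.b n) (u n) (B.E cs) x)
          (fun a => ∀ w ∈ W, a ∈ Nw w.1 n x)) := by
    have hall : ∀ᶠ n in UU, ∀ w : Q, β ≤ ex (prodW (B.q n))
        (fun x => pr (mean (B.q n) (B.b n) (u n) (B.E (cw w)) x) (fun a => a ∈ Nw w n x)) :=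
      Filter.eventually_all.2 hNmass
    filter_upwards [hall] with n hn
    obtain ⟨W, hW1, hW2⟩ := hPIG (G.V n) B.I (B.X n) Qs (B.q n) (B.hq n)
      (mean (B.q n) (B.b n) (u n) (B.E cs))
      (fun x => mean_prob (B.hq n) (B.b n) (hu.1 n) (B.E cs) x)
      (fun w x => Nw w.1 n x) β hβ0
      (by
        intro w
        have := hn w.1
        rw [w.2] at this
        exact this)
    refine ⟨W, hW1, ?_⟩
    have hκle : κ ≤ β / 4 * (1 / 2) ^ Fintype.card Qs := by
      rw [hκ]
      apply mul_le_mul_of_nonneg_left _ (by positivity)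
      exact pow_le_pow_of_le_one (by norm_num) (by norm_num) hQle
    refine hκle.trans (hW2.trans ?_)
    exact pr_mono' (prodW_prob (B.hq n)).1 fun x hx => hκle.trans hx
  obtain ⟨W, hW⟩ := hPGU (Finset Qs) _ hpig
  have hWc : β / 2 * Fintype.card Qs ≤ W.card := by
    obtain ⟨n, hn⟩ := ev_exists hW
    exact hn.1
  have hWle : W.card ≤ Fintype.card Q := (Finset.card_le_univ W).trans hQle
  -- the set of surviving patterns in `Q`
  let Wo : Finset Q := W.map ⟨Subtype.val, Subtype.val_injective⟩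
  have hWoc : Wo.card = W.card := Finset.card_map _
  have hWo : ∀ w ∈ Wo, cw w = cs := by
    intro w hw
    rw [Finset.mem_map] at hw
    obtain ⟨w', _, rfl⟩ := hw
    exact w'.2
  have hcardY : Fintype.card {w : Q // w ∈ Wo} = W.card := by
    rw [Fintype.card_coe, hWoc]
  have hcardY' : Fintype.card {w : Q // w ∈ Wo} ≤ Fintype.card Q := hcardY ▸ hWle
  obtain ⟨ν, RR, f, c1, c2, c3, c4, c5, c6, c7⟩ := hITR G B S u (B.E cs) {w : Q // w ∈ Wo}
    (fun y => R' y.1) (fun y => Nw y.1) κ δ δ' η θ0 M hS hu (fun y => hR' y.1) hκ0 hδ0 hδ' hη0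
    hθpos hθ1
    (by
      have h1 : ((Fintype.card {w : Q // w ∈ Wo} : ℕ) : ℝ) ≤ q := by
        rw [hq]
        exact_mod_cast hcardY'
      calc ((Fintype.card {w : Q // w ∈ Wo} : ℕ) : ℝ) * 2 ^ M * η ≤ q * 2 ^ M * η := by
            gcongr
        _ = κ / 2 := by
            rw [hη]
            field_simp
        _ < κ := by linarith)
    (by
      rw [hδ]
      apply mul_le_mul_of_nonneg_left _ hκ0.le
      apply pow_le_pow_of_le_one (by positivity) (by linarith)
      apply Nat.mul_le_mul_left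
      exact Nat.mul_le_mul_right _ hcardY')
    (by
      filter_upwards [hW] with n hn
      have e : ∀ (x : B.I → B.X n) (a : G.V n), (∀ y : {w : Q // w ∈ Wo}, a ∈ Nw y.1 n x) ↔
          ∀ w ∈ W, a ∈ Nw w.1 n x := by
        intro x a
        constructor
        · intro h w hw
          exact h ⟨w.1, Finset.mem_map.2 ⟨w, hw, rfl⟩⟩
        · rintro h ⟨y, hy⟩
          rw [Finset.mem_map] at hy
          obtain ⟨w', hw', rfl⟩ := hy
          exact h w' hw'
      simp only [e]
      exact hn.2)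
    (by
      intro y R'' hR'' hsub k
      have := hNbad y.1 R'' hR'' hsub k
      rw [hWo y.1 y.2] at this
      exact this)
  refine ⟨Wo, ν, fun w z => if h : w ∈ Wo then RR ⟨w, h⟩ z else Sw w,
    fun i w z => if h : w ∈ Wo then f i ⟨w, h⟩ z else fun _ _ => 0, ?_, c1, c2, ?_, ?_, ?_, ?_, ?_⟩
  · rw [hWoc]
    refine le_trans ?_ hWc
    calc β / (2 * c) * q ≤ β / (2 * c) * (c * Fintype.card Qs) := by gcongr
      _ = β / 2 * Fintype.card Qs := by
        field_simp
  · intro w hw z
    simp only [dif_pos hw]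
    exact c3 _ _
  · intro w z
    by_cases hw : w ∈ Wo
    · simp only [dif_pos hw]
      exact ((c4 ⟨w, hw⟩ z).trans (hR'S w)).trans (hRwS w)
    · simp only [dif_neg hw]
      exact Sub.refl _
  · intro i w z n a
    by_cases hw : w ∈ Wo
    · simp only [dif_pos hw]
      exact c5 _ _ _ _ _
    · simp only [dif_neg hw]
      exact ⟨le_rfl, zero_le_one⟩
  · intro i w hw z
    simp only [dif_pos hw]
    exact c6 _ _ _
  · filter_upwards [c7] with n hn
    intro i w hw z a ha
    simp only [dif_pos hw]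
    exact hn i ⟨w, hw⟩ z a ha

end Pool.Agent.H73.DM
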