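import Pool.Agent.H71.DM.Targets
import Pool.Agent.H71.DM.Basic

set_option autoImplicit false

/-!
# MP_c1331e_co, module CLS (one more class)
-/

namespace Pool.Agent.H73.DM

open Finset Pool.Agent.H71.DM

theorem cls (hBAT : BatchStmt) (hSHT : ShatterStmt) (hHST : HostStmt) (hSNO : SnocStmt)
    (hPSN : PatSnocStmt) : ClassStmt := by
  intro G B T γ τ ε hγ hτ hε hNF hNU
  classical
  obtain ⟨ϱ, θ, hϱ, hθ, hθ1, hbat⟩ := hBAT G B T γ τ ε hγ hτ hε hNF hNU
  refine ⟨θ, hθ, hθ1, ?_⟩
  intro H p κ hκ hst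
  refine ⟨θ ^ p * κ / 2, by positivity, ?_⟩
  intro δ hδ g
  obtain ⟨δ0, hδ0, hhost⟩ := hHST p θ κ hθ hθ1 hκ
  obtain ⟨s, hs⟩ := hSHT p g ϱ hϱ
  obtain ⟨ν, S, f, a1, a2, a3, a4, a5, a6, a7⟩ := hst (min δ δ0) (lt_min hδ hδ0) s
  let ws : Fin p → Fin s → Bool := fun i _ => decide (H (i : ℕ) p)
  have hS1 := hhost G H s ν (S ws) (fun i j => f i j ws) a1 (a2 ws) (fun i j => a4 i j ws)
    (fun i j => (a5 i j ws).mono (Sub.refl _) (min_le_right _ _))
    (by
      filter_upwards [a6] with n hn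
      intro i j a ha
      have := hn i j ws a ha
      refine ⟨fun h => this.1 ?_, fun h => this.2 ?_⟩
      · change decide (H (i : ℕ) p) = true
        exact decide_eq_true h
      · change decide (H (i : ℕ) p) = false
        exact decide_eq_false h)
    a7
  obtain ⟨W, ν', R, f', b1, b2, b3, b4, b5, b6, b7, b8⟩ :=
    hbat _ hS1 (fun n x hx => a3 ws n hx.1) (Fin p → Fin s → Bool) S a2 a3 g δ hδ
  obtain ⟨e, he⟩ := hs W b1
  choose wz hwz hwe using he
  -- pattern on the first `p` classes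
  let zz : (Fin (p + 1) → Fin g → Bool) → Fin p → Fin s → Bool :=
    fun z => wz (fun i => z i.castSucc)
  have hzW : ∀ z, zz z ∈ W := fun z => hwz _
  have hze : ∀ z i j, zz z i (e i j) = z i.castSucc j := fun z i j => hwe _ i j
  refine ⟨fun n => Fin.snoc (α := fun _ => Fin g → G.V n → ℝ) (fun i j => ν n i (e i j)) (ν' n),
    fun z => R (zz z) (z (Fin.last p)),
    fun i j z n => Fin.snoc (α := fun _ => G.V n → ℝ) (fun i0 => f i0 (e i0 j) (zz z) n)
      (f' j (zz z) (z (Fin.last p)) n) i, ?_, ?_, ?_, ?_, ?_, ?_, ?_⟩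
  · intro n i j
    refine Fin.lastCases ?_ (fun i0 => ?_) i
    · simp only [Fin.snoc_last]
      exact b2 n j
    · simp only [Fin.snoc_castSucc]
      exact a1 n i0 (e i0 j)
  · intro z
    exact b4 _ (hzW z) _
  · intro z
    exact (b5 _ _).trans (a3 _)
  · intro i j z n a
    refine Fin.lastCases ?_ (fun i0 => ?_) i
    · simp only [Fin.snoc_last]
      exact b6 _ _ _ _ _
    · simp only [Fin.snoc_castSucc]
      exact a4 _ _ _ _ _
  · intro i j z
    refine Fin.lastCases ?_ (fun i0 => ?_) i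
    · simp only [Fin.snoc_last]
      exact b7 j _ (hzW z) _
    · simp only [Fin.snoc_castSucc]
      exact (a5 i0 (e i0 j) (zz z)).mono (b5 _ _) (min_le_left _ _)
  · filter_upwards [a6, b8] with n hn1 hn2
    intro i j z a
    refine Fin.lastCases ?_ (fun i0 => ?_) i
    · simp only [Fin.snoc_last]
      intro ha
      exact hn2 j _ (hzW z) _ a ha
    · simp only [Fin.snoc_castSucc]
      intro ha
      have := hn1 i0 (e i0 j) (zz z) a ha
      rw [hze] at this
      exact this
  · filter_upwards [a7, b3] with n hn1 hn2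
    intro t
    have hq : ∀ i, IsProb ((Fin.snoc (α := fun _ => Fin g → G.V n → ℝ)
        (fun i j => ν n i (e i j)) (ν' n) : Fin (p + 1) → Fin g → G.V n → ℝ) i (t i)) := by
      intro i
      refine Fin.lastCases ?_ (fun i0 => ?_) i
      · simp only [Fin.snoc_last]
        exact b2 n _
      · simp only [Fin.snoc_castSucc]
        exact a1 n i0 _
    unfold pr
    rw [hSNO (G.V n) p _ hq]
    simp only [Fin.snoc_last, Fin.snoc_castSucc]
    refine le_ex (b2 n _) fun v hv => ?_
    have h1 := (hn2 (t (Fin.last p)) v hv).2 (fun i => e i (t i.castSucc))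
    refine h1.trans (le_of_eq ?_)
    unfold pr
    apply ex_congr
    intro x _
    exact ind_congr (hPSN (G.V n) (G.adj n) H p x v).symm

end Pool.Agent.H73.DM
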