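import Pool.Agent.H71.DM.Targets
import Pool.Agent.H71.DM.Basic

set_option autoImplicit false

/-!
# MP_c1331e_co, module ITR (`M` new vertices for given stable regions)
-/

namespace Pool.Agent.H73.DM

open Finset Pool.Agent.H71.DM

theorem iter_aux (hV : VertexStmt) (G : TSeq) (B : Base G) (S : ∀ n, Set (G.V n))
    (u : ∀ n, Finset (G.V n) → G.V n → ℝ)
    (E : Finset B.I) (Y : Type) [Fintype Y] (R : Y → ∀ n, Set (G.V n))
    (N : Y → ∀ n, (B.I → B.X n) → Set (G.V n)) (κ δ δ' η θ : ℝ) (M : ℕ)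
    (hS : Rich G S) (hu : IsKer G S B.K u) (hR : ∀ y, Rich G (R y))
    (hκ : 0 < κ) (hδ : 0 < δ) (hδ' : 0 < δ') (hη : 0 < η) (hθ : 0 < θ) (hθ1 : θ ≤ 1)
    (hc1 : Fintype.card Y * 2 ^ M * η < κ)
    (hc2 : δ ≤ κ * (θ / 2) ^ (2 * (Fintype.card Y * 2 ^ M)))
    (h1 : ∀ᶠ n in UU, κ ≤ pr (prodW (B.q n)) (fun x =>
      κ ≤ pr (mean (B.q n) (B.b n) (u n) E x) (fun a => ∀ y, a ∈ N y n x)))
    (h2 : ∀ y, ∀ R'' : ∀ n, Set (G.V n), Rich G R'' → Sub G R'' (R y) → ∀ k : ℕ, ∀ᶠ n in UU,
      pr (prodW (B.q n)) (fun x =>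
        BadAt (G.adj n) (mean (B.q n) (B.b n) (u n) E x) (N y n x) (R'' n) δ θ k) ≤ η) :
    ∀ m ≤ M, ∃ (ν : ∀ n, Fin m → G.V n → ℝ) (R' : Y → (Fin m → Bool) → ∀ n, Set (G.V n))
      (f : Fin m → Y → (Fin m → Bool) → ∀ n, G.V n → ℝ),
      (∀ n i, IsProb (ν n i)) ∧ (∀ᶠ n in UU, ∀ i a, ν n i a ≠ 0 → a ∈ S n) ∧
      (∀ y z, Rich G (R' y z)) ∧ (∀ y z, Sub G (R' y z) (R y)) ∧
      (∀ i y z n a, 0 ≤ f i y z n a ∧ f i y z n a ≤ 1) ∧
      (∀ i y z, Homog G (R' y z) (fun n => ν n i) (f i y z) δ') ∧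
      (∀ᶠ n in UU, ∀ i y z a, ν n i a ≠ 0 →
        (z i = true → θ / 4 ≤ f i y z n a) ∧ (z i = false → f i y z n a ≤ 1 - θ / 4)) := by
  intro m
  induction m with
  | zero =>
    intro _
    refine ⟨fun n i => i.elim0, fun y _ => R y, fun i => i.elim0, ?_, ?_, fun y _ => hR y,
      fun y _ => Sub.refl _, fun i => i.elim0, fun i => i.elim0, ?_⟩
    · intro n i
      exact i.elim0
    · exact Filter.Eventually.of_forall fun n i => i.elim0
    · exact Filter.Eventually.of_forall fun n i => i.elim0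
  | succ m ih =>
    intro hm
    obtain ⟨ν, R', f, c1, c2, c3, c4, c5, c6, c7⟩ := ih (by omega)
    have hcard : Fintype.card (Y × (Fin m → Bool)) = Fintype.card Y * 2 ^ m := by
      rw [Fintype.card_prod, Fintype.card_fun, Fintype.card_bool, Fintype.card_fin]
    have hle : Fintype.card Y * 2 ^ m ≤ Fintype.card Y * 2 ^ M :=
      Nat.mul_le_mul_left _ (Nat.pow_le_pow_right (by norm_num) (by omega))
    have hle' : ((Fintype.card Y * 2 ^ m : ℕ) : ℝ) ≤ ((Fintype.card Y * 2 ^ M : ℕ) : ℝ) := by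
      exact_mod_cast hle
    obtain ⟨ν1, R1, f1, d1, d2, d3, d4, d5, d6, d7⟩ :=
      hV G B S u E (Y × (Fin m → Bool)) (fun yz => R' yz.1 yz.2) (fun yz => N yz.1) κ δ δ' η θ
        hS hu (fun yz => c3 yz.1 yz.2) hκ hδ hδ' hη hθ hθ1
        (by
          rw [hcard]
          have := mul_le_mul_of_nonneg_right hle' hη.le
          push_cast at this ⊢
          linarith)
        (by
          rw [hcard]
          refine hc2.trans ?_
          apply mul_le_mul_of_nonneg_left _ hκ.le
          apply pow_le_pow_of_le_one (by positivity) (by linarith)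
          omega)
        (by
          filter_upwards [h1] with n hn
          have e : ∀ (x : B.I → B.X n) (a : G.V n), (∀ yz : Y × (Fin m → Bool), a ∈ N yz.1 n x) ↔
              ∀ y, a ∈ N y n x :=
            fun x a => ⟨fun h y => h (y, fun _ => true), fun h yz => h yz.1⟩
          simp only [e]
          exact hn)
        (fun yz k => h2 yz.1 (R' yz.1 yz.2) (c3 _ _) (c4 _ _) k)
    refine ⟨fun n => Fin.snoc (α := fun _ => G.V n → ℝ) (ν n) (ν1 n),
      fun y z => R1 (y, Fin.init z) (z (Fin.last m)),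
      fun i y z n => Fin.snoc (α := fun _ => G.V n → ℝ) (fun i0 => f i0 y (Fin.init z) n)
        (f1 (y, Fin.init z) (z (Fin.last m)) n) i, ?_, ?_, ?_, ?_, ?_, ?_, ?_⟩
    · intro n i
      refine Fin.lastCases ?_ (fun i0 => ?_) i
      · simp only [Fin.snoc_last]
        exact d1 n
      · simp only [Fin.snoc_castSucc]
        exact c1 n i0
    · filter_upwards [c2, d2] with n hn1 hn2
      intro i a
      refine Fin.lastCases ?_ (fun i0 => ?_) i
      · simp only [Fin.snoc_last]
        exact hn2 a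
      · simp only [Fin.snoc_castSucc]
        exact hn1 i0 a
    · intro y z
      exact d3 _ _
    · intro y z
      exact (d4 (y, Fin.init z) (z (Fin.last m))).trans (c4 _ _)
    · intro i y z n a
      refine Fin.lastCases ?_ (fun i0 => ?_) i
      · simp only [Fin.snoc_last]
        exact d5 _ _ n a
      · simp only [Fin.snoc_castSucc]
        exact c5 i0 _ _ n a
    · intro i y z
      refine Fin.lastCases ?_ (fun i0 => ?_) i
      · simp only [Fin.snoc_last]
        exact d6 _ _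
      · simp only [Fin.snoc_castSucc]
        exact (c6 i0 y (Fin.init z)).mono (d4 (y, Fin.init z) (z (Fin.last m))) le_rfl
    · filter_upwards [c7, d7] with n hn1 hn2
      intro i y z a
      refine Fin.lastCases ?_ (fun i0 => ?_) i
      · simp only [Fin.snoc_last]
        intro ha
        have := hn2 (y, Fin.init z) a ha
        refine ⟨fun hz => ?_, fun hz => ?_⟩
        · rw [hz]
          exact this.1
        · rw [hz]
          exact this.2
      · simp only [Fin.snoc_castSucc]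
        intro ha
        exact hn1 i0 y (Fin.init z) a ha

theorem itr (hV : VertexStmt) : IterStmt := by
  intro G B S u E Y _ R N κ δ δ' η θ M hS hu hR hκ hδ hδ' hη hθ hθ1 hc1 hc2 h1 h2
  exact iter_aux hV G B S u E Y R N κ δ δ' η θ M hS hu hR hκ hδ hδ' hη hθ hθ1 hc1 hc2 h1 h2 M le_rfl

end Pool.Agent.H73.DM
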